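import Pool.Agent.H70.TIE.Stmts

/-!
# Project TIE: module ONE (there is at most one exceptional conductor)
-/

set_option autoImplicit false

namespace TIE
open Finset MTA

private theorem ONE_lift {r N : ℕ} [NeZero N] (h : r ∣ N) (χ : DirichletCharacter ℂ r) (n : ℕ) :
    DirichletCharacter.changeLevel h χ (n : ZMod N) = if n.Coprime N then χ (n : ZMod r) else 0 := by
  split_ifs with hc
  · have := DirichletCharacter.changeLevel_eq_cast_of_dvd' χ h (a := (n : ℤ))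
      (by simpa [Nat.isCoprime_iff_coprime] using hc)
    simpa using this
  · apply MulChar.map_nonunit
    rwa [ZMod.isUnit_iff_coprime]

private theorem ONE_vals {r : ℕ} {χ : DirichletCharacter ℂ r} (h : χ ^ 2 = 1) (a : ZMod r) :
    ∃ x : ℝ, χ a = (x : ℂ) ∧ (x = 0 ∨ x = 1 ∨ x = -1) := by
  rcases MulChar.isQuadratic_iff_sq_eq_one.mpr h a with h | h | h
  · exact ⟨0, by simp [h], Or.inl rfl⟩
  · exact ⟨1, by simp [h], Or.inr (Or.inl rfl)⟩
  · exact ⟨-1, by simp [h], Or.inr (Or.inr rfl)⟩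

private theorem ONE_real {x a b : ℝ} (h0 : 0 < x) (h1 : x < 1) (ha : a = 0 ∨ a = 1 ∨ a = -1)
    (hb : b = 0 ∨ b = 1 ∨ b = -1) :
    0 ≤ -Real.log (1 - x) + -Real.log (1 - a * x) + -Real.log (1 - b * x) +
      -Real.log (1 - (a * b) * x) := by
  have h2 : Real.log (1 - x) ≤ 0 := Real.log_nonpos (by linarith) (by linarith)
  have h3 : Real.log (1 - x) + Real.log (1 + x) ≤ 0 := by
    rw [← Real.log_mul (by linarith) (by linarith)]
    exact Real.log_nonpos (by nlinarith) (by nlinarith)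
  rcases ha with rfl | rfl | rfl <;> rcases hb with rfl | rfl | rfl <;> norm_num <;> linarith

/-- Repulsion: the product of two quadratic primitive characters of different conductors. -/
theorem one_repp (r0 r1 : ℕ) [NeZero r0] [NeZero r1] (χ0 : DirichletCharacter ℂ r0)
    (χ1 : DirichletCharacter ℂ r1) (h0 : χ0 ^ 2 = 1) (h1 : χ1 ^ 2 = 1) (hp0 : χ0.IsPrimitive)
    (hp1 : χ1.IsPrimitive) (hne : r0 ≠ r1) : ∃ ψ : DirichletCharacter ℂ (r0 * r1), ψ ≠ 1 ∧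
    ∀ σ : ℝ, 1 < σ → 1 ≤ ‖riemannZeta σ‖ * ‖Lj χ0 0 σ‖ * ‖Lj χ1 0 σ‖ * ‖Lj ψ 0 σ‖ := by
  have hN : NeZero (r0 * r1) := ⟨mul_ne_zero (NeZero.ne r0) (NeZero.ne r1)⟩
  set α := DirichletCharacter.changeLevel (dvd_mul_right r0 r1) χ0 with hα
  set β := DirichletCharacter.changeLevel (dvd_mul_left r1 r0) χ1 with hβ
  refine ⟨α * β, ?_, ?_⟩
  · intro hψ
    have e1 : α ^ 2 = 1 := by rw [hα, ← map_pow, h0, map_one]
    have e2 : α = β := by
      have : α * (α * β) = α := by rw [hψ, mul_one]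
      rw [← mul_assoc, ← sq, e1, one_mul] at this
      exact this.symm
    have e3 : r0 = r1 := by
      have c0 := DirichletCharacter.conductor_changeLevel χ0 (dvd_mul_right r0 r1)
      have c1 := DirichletCharacter.conductor_changeLevel χ1 (dvd_mul_left r1 r0)
      rw [← hα, e2] at c0
      rw [← hβ] at c1
      rw [hp0] at c0
      rw [hp1] at c1
      exact c0.symm.trans c1
    exact hne e3
  · intro σ hσ
    have hs : 1 < (σ : ℂ).re := by simpa using hσ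
    have hψ : ∀ n : ℕ, (α * β) (n : ZMod (r0 * r1)) = χ0 n * χ1 n := by
      intro n
      rw [MulChar.mul_apply, hα, hβ, ONE_lift, ONE_lift]
      by_cases hc : n.Coprime (r0 * r1)
      · rw [if_pos hc, if_pos hc]
      · rw [if_neg hc, if_neg hc, zero_mul]
        rw [Nat.coprime_mul_iff_right, not_and_or] at hc
        symm
        rcases hc with hc | hc
        · rw [χ0.map_nonunit (by rwa [ZMod.isUnit_iff_coprime]), zero_mul]
        · rw [χ1.map_nonunit (by rwa [ZMod.isUnit_iff_coprime]), mul_zero]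
    have hL : ∀ {r : ℕ} (χ : DirichletCharacter ℂ r), Lj χ 0 σ =
        Complex.exp (∑' p : Nat.Primes, -Complex.log (1 - χ p * (p : ℂ) ^ (-(σ : ℂ)))) := by
      intro r χ
      rw [DirichletCharacter.LSeries_eulerProduct_exp_log χ hs]
      unfold Lj
      simp only [pow_zero, mul_one]
    have hζ := riemannZeta_eulerProduct_exp_log hs
    have H0 := χ0.summable_neg_log_one_sub_mul_prime_cpow hs
    have H1 := χ1.summable_neg_log_one_sub_mul_prime_cpow hs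
    have Hψ := (α * β).summable_neg_log_one_sub_mul_prime_cpow hs
    have Hζ : Summable fun p : Nat.Primes => -Complex.log (1 - (p : ℂ) ^ (-(σ : ℂ))) := by
      have := (1 : DirichletCharacter ℂ 1).summable_neg_log_one_sub_mul_prime_cpow hs
      simpa [MulChar.one_apply <| isUnit_of_subsingleton _] using this
    rw [hL, hL, hL, ← hζ, Complex.norm_exp, Complex.norm_exp, Complex.norm_exp, Complex.norm_exp,
      ← Real.exp_add, ← Real.exp_add, ← Real.exp_add, Real.one_le_exp_iff, Complex.re_tsum Hζ,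
      Complex.re_tsum H0, Complex.re_tsum H1, Complex.re_tsum Hψ]
    have S0 := (Complex.hasSum_re H0.hasSum).summable
    have S1 := (Complex.hasSum_re H1.hasSum).summable
    have Sψ := (Complex.hasSum_re Hψ.hasSum).summable
    have Sζ := (Complex.hasSum_re Hζ.hasSum).summable
    rw [← Sζ.tsum_add S0, ← (Sζ.add S0).tsum_add S1, ← ((Sζ.add S0).add S1).tsum_add Sψ]
    refine tsum_nonneg fun p => ?_
    rw [hψ]
    obtain ⟨a, ha, ha'⟩ := ONE_vals h0 (p : ZMod r0)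
    obtain ⟨b, hb, hb'⟩ := ONE_vals h1 (p : ZMod r1)
    rw [ha, hb]
    have hx : (p : ℂ) ^ (-(σ : ℂ)) = (((p : ℝ) ^ (-σ) : ℝ) : ℂ) := by
      rw [Complex.ofReal_cpow (by positivity)]
      push_cast
      rfl
    have hp1 : (1 : ℝ) < p := by exact_mod_cast p.2.one_lt
    have hx0 : 0 < (p : ℝ) ^ (-σ) := by positivity
    have hx1 : (p : ℝ) ^ (-σ) < 1 := Real.rpow_lt_one_of_one_lt_of_neg hp1 (by linarith)
    rw [hx]
    have e : ∀ y : ℝ, 0 ≤ 1 - y * (p : ℝ) ^ (-σ) →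
        (-Complex.log (1 - (y : ℂ) * (((p : ℝ) ^ (-σ) : ℝ) : ℂ))).re =
          -Real.log (1 - y * (p : ℝ) ^ (-σ)) := by
      intro y hy
      rw [Complex.neg_re, Complex.log_re]
      congr 1
      have : (1 - (y : ℂ) * (((p : ℝ) ^ (-σ) : ℝ) : ℂ)) = ((1 - y * (p : ℝ) ^ (-σ) : ℝ) : ℂ) := by
        push_cast
        ring
      rw [this, Complex.norm_real, Real.norm_of_nonneg hy]
    have e1 := e 1 (by linarith)
    rw [Complex.ofReal_one, one_mul, one_mul] at e1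
    rw [e1, e a (by rcases ha' with rfl | rfl | rfl <;> linarith),
      e b (by rcases hb' with rfl | rfl | rfl <;> linarith), ← Complex.ofReal_mul, e (a * b) (by
        rcases ha' with rfl | rfl | rfl <;> rcases hb' with rfl | rfl | rfl <;> linarith)]
    exact ONE_real hx0 hx1 ha' hb'


private theorem one_zeta (h3 : MTA.S_ZUP) (σ : ℝ) (h1 : 1 < σ) (h2 : σ ≤ 2) :
    ‖riemannZeta (σ : ℂ)‖ ≤ 2 / (σ - 1) := by
  obtain ⟨C, _, h⟩ := h3
  have h4 := (h 1 (σ : ℂ) (by simpa using h1) (by simpa using h2)).2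
  have h5 : Lj (1 : DirichletCharacter ℂ 1) 0 (σ : ℂ) = riemannZeta (σ : ℂ) := by
    rw [← DirichletCharacter.LFunction_modOne_eq (χ := 1),
      DirichletCharacter.LFunction_eq_LSeries _ (by simpa using h1)]
    unfold Lj
    simp
  rw [h5] at h4
  simpa using h4

private theorem one_small (K ξ : ℝ) (hK : 0 < K) (h0 : 0 < ξ)
    (h1 : ξ < 1 / (216 * K + 1) ^ 6) : K * ξ * (1 + Real.log (1 / ξ)) ^ 3 < 1 := by
  set y : ℝ := 1 / ξ with hy
  have hy0 : 0 < y := by positivity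
  have hA : (216 * K + 1) ^ 6 < y := by
    rw [hy, lt_div_iff₀ h0]
    rw [lt_div_iff₀ (by positivity)] at h1
    linarith
  set z : ℝ := y ^ ((6 : ℕ) : ℝ)⁻¹ with hz
  have hz6 : z ^ 6 = y := Real.rpow_inv_natCast_pow hy0.le (by norm_num)
  have hz0 : 0 < z := Real.rpow_pos_of_pos hy0 _
  have hzA : 216 * K + 1 < z := by
    by_contra hcon
    have := pow_le_pow_left₀ hz0.le (not_lt.1 hcon) 6
    rw [hz6] at this
    linarith
  have hz1 : 1 < z := by linarith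
  have hlog : Real.log y = 6 * Real.log z := by
    rw [← hz6, Real.log_pow]
    norm_num
  have hlz := Real.log_le_sub_one_of_pos hz0
  have hlz0 : 0 ≤ Real.log z := Real.log_nonneg hz1.le
  have hl : 1 + Real.log y ≤ 6 * z := by
    rw [hlog]; linarith
  have hl0 : 0 ≤ 1 + Real.log y := by rw [hlog]; linarith
  have hl3 := pow_le_pow_left₀ hl0 hl 3
  have hξ : ξ = 1 / z ^ 6 := by rw [hz6, hy]; simp
  have hz3 : z ≤ z ^ 3 := by nlinarith [mul_pos hz0 hz0]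
  calc K * ξ * (1 + Real.log y) ^ 3 ≤ K * ξ * (6 * z) ^ 3 :=
        mul_le_mul_of_nonneg_left hl3 (by positivity)
    _ = 216 * K / z ^ 3 := by rw [hξ]; field_simp; ring
    _ < 1 := by
        rw [div_lt_one (by positivity)]
        linarith

set_option maxHeartbeats 4000000 in
theorem ONE (h2 : MTA.S_LUP) (h3 : MTA.S_ZUP) (h4 : MTA.S_LIP) : S_ONE := by
  intro B
  obtain ⟨C1, hC1, hlup⟩ := h2 0
  obtain ⟨C2, hC2, hlip⟩ := h4
  set c : ℝ := 2 + 16 * B with hc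
  have hB0 : (0 : ℝ) ≤ B := Nat.cast_nonneg B
  have hc0 : 0 < c := by positivity
  set K : ℝ := 2 * (1 + C2 * c ^ 2) ^ 2 * (C1 * c) with hK
  have hK0 : 0 < K := by positivity
  set ε : ℝ := min 1 (1 / (216 * K + 1) ^ 6) with hε
  have hε0 : 0 < ε := by
    apply lt_min zero_lt_one
    positivity
  refine ⟨Real.exp (ε⁻¹ ^ 8 + 1), fun x hx r0 r1 hb0 hb1 => ?_⟩
  obtain ⟨hr0, hr0B, χ0, p0, ne0, sq0, lt0⟩ := hb0
  obtain ⟨hr1, hr1B, χ1, p1, ne1, sq1, lt1⟩ := hb1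
  by_contra hne
  have hlogx : ε⁻¹ ^ 8 + 1 ≤ Real.log x := by
    rw [Real.le_log_iff_exp_le]
    · exact hx
    · exact lt_of_lt_of_le (Real.exp_pos _) hx
  have hl0 : 0 < Real.log x := by
    have : 0 < ε⁻¹ ^ 8 := by positivity
    linarith
  obtain ⟨ξ, hξ⟩ : ∃ ξ : ℝ, ξ = (Real.log x) ^ (-(1 / 8) : ℝ) := ⟨_, rfl⟩
  rw [← hξ] at lt0 lt1
  have hξ0 : 0 < ξ := hξ ▸ Real.rpow_pos_of_pos hl0 _
  have hξ8 : ξ ^ 8 = (Real.log x)⁻¹ := by
    rw [hξ, ← Real.rpow_natCast, ← Real.rpow_mul hl0.le]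
    norm_num
    rw [Real.rpow_neg_one]
  have hlog : Real.log x = ξ⁻¹ ^ 8 := by
    rw [inv_pow, hξ8, inv_inv]
  have hξε : ξ < ε := by
    have h5 : ε⁻¹ ^ 8 < ξ⁻¹ ^ 8 := by linarith
    have h6 : ε⁻¹ < ξ⁻¹ := lt_of_pow_lt_pow_left₀ 8 (by positivity) h5
    exact (inv_lt_inv₀ hε0 hξ0).1 h6
  have hξ1 : ξ < 1 := lt_of_lt_of_le hξε (min_le_left _ _)
  have hξ2 : ξ < 1 / (216 * K + 1) ^ 6 := lt_of_lt_of_le hξε (min_le_right _ _)
  obtain ⟨ψ, hψ, hprod⟩ := one_repp r0 r1 χ0 χ1 sq0 sq1 p0 p1 hne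
  have hr0' : (r0 : ℝ) ≤ (ξ⁻¹ ^ 8) ^ B := hlog ▸ hr0B
  have hr1' : (r1 : ℝ) ≤ (ξ⁻¹ ^ 8) ^ B := hlog ▸ hr1B
  have hr0pos : (0 : ℝ) < r0 := by exact_mod_cast Nat.pos_of_ne_zero hr0.out
  have hr1pos : (0 : ℝ) < r1 := by exact_mod_cast Nat.pos_of_ne_zero hr1.out
  set ℓ : ℝ := 1 + Real.log (1 / ξ) with hℓ
  have hlogi : 0 ≤ Real.log (1 / ξ) := Real.log_nonneg (by
    rw [le_div_iff₀ hξ0]; linarith)
  have hℓ1 : 1 ≤ ℓ := by linarith
  have hlog3 : Real.log 3 ≤ 2 := by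
    have := Real.log_le_sub_one_of_pos (show (0 : ℝ) < 3 by norm_num)
    linarith
  have hlogr : ∀ r : ℕ, (0 : ℝ) < r → (r : ℝ) ≤ (ξ⁻¹ ^ 8) ^ B →
      Real.log r ≤ 8 * B * Real.log (1 / ξ) := by
    intro r hr hrB
    have h5 := Real.log_le_log hr hrB
    rw [Real.log_pow, Real.log_pow] at h5
    rw [one_div]
    push_cast at h5
    linarith
  have hL0 := hlogr r0 hr0pos hr0'
  have hL1 := hlogr r1 hr1pos hr1'
  have hBl : 0 ≤ (B : ℝ) * Real.log (1 / ξ) := mul_nonneg hB0 hlogi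
  have hcl : 2 + 16 * B * Real.log (1 / ξ) ≤ c * ℓ := by
    rw [hc, hℓ]
    nlinarith
  have hLL0 : LL r0 0 ≤ c * ℓ := by
    unfold LL
    rw [abs_zero, zero_add, Real.log_mul hr0pos.ne' (by norm_num)]
    linarith
  have hLL1 : LL r1 0 ≤ c * ℓ := by
    unfold LL
    rw [abs_zero, zero_add, Real.log_mul hr1pos.ne' (by norm_num)]
    linarith
  have hLL01 : LL (r0 * r1) 0 ≤ c * ℓ := by
    unfold LL
    rw [abs_zero, zero_add, Nat.cast_mul, Real.log_mul (by positivity) (by norm_num),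
      Real.log_mul hr0pos.ne' hr1pos.ne']
    linarith
  have hLLnn : ∀ r : ℕ, (1 : ℝ) ≤ r → 0 ≤ LL r 0 := by
    intro r hr
    unfold LL
    apply Real.log_nonneg
    rw [abs_zero, zero_add]
    linarith
  have hr0one : (1 : ℝ) ≤ r0 := by exact_mod_cast Nat.one_le_iff_ne_zero.2 hr0.out
  have hr1one : (1 : ℝ) ≤ r1 := by exact_mod_cast Nat.one_le_iff_ne_zero.2 hr1.out
  -- the point `1 + δ`
  set δ : ℝ := ξ / ℓ ^ 2 with hδ
  have hℓ0 : 0 < ℓ := by linarith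
  have hδ0 : 0 < δ := by positivity
  have hδ1 : δ ≤ 1 := by
    rw [hδ, div_le_one (by positivity)]
    exact hξ1.le.trans (one_le_pow₀ hℓ1)
  have hσ1 : 1 < 1 + δ := by linarith
  have hσ2 : 1 + δ ≤ 2 := by linarith
  have e0 := (hlip r0 χ0 ne0).2 (1 + δ) 0 hσ1 hσ2 (by simp)
  have e1 := (hlip r1 χ1 ne1).2 (1 + δ) 0 hσ1 hσ2 (by simp)
  have : NeZero (r0 * r1) := ⟨Nat.mul_ne_zero hr0.out hr1.out⟩
  have e2 := hlup (r0 * r1) ψ hψ ((1 + δ : ℝ) : ℂ) (by simpa using hδ0) (by simpa using hσ2)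
  have e3 := one_zeta h3 (1 + δ) hσ1 hσ2
  have e4 := hprod (1 + δ) hσ1
  simp only [Complex.ofReal_zero, zero_mul, add_zero, abs_zero, add_sub_cancel_left] at e0 e1 e3
  simp only [Complex.ofReal_im, zero_add, pow_one] at e2
  have bnd : ∀ (r : ℕ), (1 : ℝ) ≤ r → LL r 0 ≤ c * ℓ → C2 * δ * (LL r 0) ^ 2 ≤ C2 * c ^ 2 * ξ := by
    intro r hr hL
    have h5 := pow_le_pow_left₀ (hLLnn r hr) hL 2
    calc C2 * δ * (LL r 0) ^ 2 ≤ C2 * δ * (c * ℓ) ^ 2 :=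
          mul_le_mul_of_nonneg_left h5 (by positivity)
      _ = C2 * c ^ 2 * ξ := by rw [hδ]; field_simp
  have f0 : ‖Lj χ0 0 ((1 + δ : ℝ) : ℂ)‖ ≤ (1 + C2 * c ^ 2) * ξ := by
    have h5 := norm_le_norm_add_norm_sub' (Lj χ0 0 ((1 + δ : ℝ) : ℂ)) (χ0.LFunction 1)
    have h6 := bnd r0 hr0one hLL0
    calc ‖Lj χ0 0 ((1 + δ : ℝ) : ℂ)‖ ≤ _ := h5
      _ ≤ ξ + C2 * c ^ 2 * ξ := add_le_add lt0.le (e0.trans h6)
      _ = _ := by ring
  have f1 : ‖Lj χ1 0 ((1 + δ : ℝ) : ℂ)‖ ≤ (1 + C2 * c ^ 2) * ξ := by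
    have h5 := norm_le_norm_add_norm_sub' (Lj χ1 0 ((1 + δ : ℝ) : ℂ)) (χ1.LFunction 1)
    have h6 := bnd r1 hr1one hLL1
    calc ‖Lj χ1 0 ((1 + δ : ℝ) : ℂ)‖ ≤ _ := h5
      _ ≤ ξ + C2 * c ^ 2 * ξ := add_le_add lt1.le (e1.trans h6)
      _ = _ := by ring
  have f2 : ‖Lj ψ 0 ((1 + δ : ℝ) : ℂ)‖ ≤ C1 * (c * ℓ) :=
    e2.trans (mul_le_mul_of_nonneg_left hLL01 hC1.le)
  have g1 : ‖riemannZeta ((1 + δ : ℝ) : ℂ)‖ * ‖Lj χ0 0 ((1 + δ : ℝ) : ℂ)‖ *
      ‖Lj χ1 0 ((1 + δ : ℝ) : ℂ)‖ * ‖Lj ψ 0 ((1 + δ : ℝ) : ℂ)‖ ≤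
      2 / δ * ((1 + C2 * c ^ 2) * ξ) * ((1 + C2 * c ^ 2) * ξ) * (C1 * (c * ℓ)) := by
    gcongr
  have g2 : 2 / δ * ((1 + C2 * c ^ 2) * ξ) * ((1 + C2 * c ^ 2) * ξ) * (C1 * (c * ℓ)) =
      K * ξ * ℓ ^ 3 := by
    rw [hδ, hK]
    field_simp
  have g3 := one_small K ξ hK0 hξ0 hξ2
  rw [g2] at g1
  have g4 : (1 : ℝ) ≤ K * ξ * ℓ ^ 3 := e4.trans g1
  rw [hℓ] at g4
  linarith

end TIE
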